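import Mathlib

/-!
Connected Hopf algebras (any field, any characteristic) have integral or infinite GK dimension.
Definitions shared by all blocks.
-/

set_option autoImplicit false

universe u v

namespace Pool.Agent.GK

open TensorProduct

section defs
variable (k : Type u) [Field k] {H : Type v} [Ring H] [Bialgebra k H]

/-- The span of the pure tensors `a ⊗ b`, `a` in `A`, `b` in `B`, inside `H ⊗ H`. -/
def tsp (A B : Submodule k H) : Submodule k (H ⊗[k] H) :=
  Submodule.map₂ (TensorProduct.mk k H H) A B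

/-- A subspace `D` with `Δ(D) ⊆ D ⊗ D`. -/
def IsSubcoalgebra (D : Submodule k H) : Prop :=
  ∀ x ∈ D, Coalgebra.comul (R := k) x ∈ tsp k D D

/-- A nonzero subcoalgebra whose only subcoalgebras are zero and itself. -/
def IsSimpleSubcoalgebra (D : Submodule k H) : Prop :=
  IsSubcoalgebra k D ∧ D ≠ ⊥ ∧ ∀ E : Submodule k H, IsSubcoalgebra k E → E ≤ D → E = ⊥ ∨ E = D

variable (H) in
/-- The coradical: the sum of all simple subcoalgebras. -/
def coradical : Submodule k H := sSup {D | IsSimpleSubcoalgebra k D}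

variable (H) in
/-- `H` is connected: its coradical is the line spanned by `1`. -/
def IsConnectedBialgebra : Prop := coradical k H = Submodule.span k {1}

variable (H) in
/-- The Gelfand-Kirillov dimension, as in the frozen statement of the problem. -/
noncomputable def GKdim : ENNReal :=
  ⨆ (V : Submodule k H) (_ : 1 ≤ V ∧ V.FG),
    Filter.limsup
      (fun n : ℕ =>
        ENNReal.ofReal
          (Real.log ((Module.finrank k ↥(V ^ n) : ℕ) : ℝ) / Real.log (n : ℝ)))
      Filter.atTop

/-- The part of a filtration strictly below level `n`. -/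
def Flt (F : ℕ → Submodule k H) : ℕ → Submodule k H
  | 0 => ⊥
  | n + 1 => F n

/-- The total filtration on `H ⊗ H`: span of `u ⊗ v` with `u ∈ F a`, `v ∈ F b`, `a + b ≤ n`. -/
def TT (F : ℕ → Submodule k H) (n : ℕ) : Submodule k (H ⊗[k] H) :=
  Submodule.span k {t | ∃ a b : ℕ, ∃ u ∈ F a, ∃ v ∈ F b, a + b ≤ n ∧ t = u ⊗ₜ[k] v}

/-- The part of the total filtration strictly below level `n`. -/
def Tlt (F : ℕ → Submodule k H) : ℕ → Submodule k (H ⊗[k] H)
  | 0 => ⊥
  | n + 1 => TT k F n

/-- Elements of level `n` that are primitive modulo lower levels. -/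
def ApproxPrim (F : ℕ → Submodule k H) (n : ℕ) (x : H) : Prop :=
  x ∈ F n ∧ Coalgebra.comul (R := k) x - x ⊗ₜ[k] (1 : H) - (1 : H) ⊗ₜ[k] x ∈ Tlt k F n

/-- A bialgebra filtration `F` generated by finitely many elements `c i` of positive weight `w i`
that are primitive modulo lower terms. -/
structure IsFilt (F : ℕ → Submodule k H) {m : ℕ} (c : Fin m → H) (w : Fin m → ℕ) : Prop where
  zero : F 0 = Submodule.span k {1}
  mono : Monotone F
  fg : ∀ n, (F n).FG
  mul : ∀ a b : ℕ, ∀ x ∈ F a, ∀ y ∈ F b, x * y ∈ F (a + b)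
  comul : ∀ n : ℕ, ∀ x ∈ F n, Coalgebra.comul (R := k) x ∈ TT k F n
  wpos : ∀ i, 1 ≤ w i
  prim : ∀ i, ApproxPrim k F (w i) (c i)
  gen : ∀ n : ℕ, 1 ≤ n →
    F n ≤ Flt k F n ⊔ Submodule.span k {z | ∃ i, w i ≤ n ∧ ∃ y ∈ F (n - w i), z = c i * y}

/-- The data of the finite case: homogeneous elements `x i` of weight `w i` that span a Lie
algebra modulo lower terms and generate the filtration `F`. -/
structure IsLieGen (F : ℕ → Submodule k H) {d : ℕ} (x : Fin d → H) (w : Fin d → ℕ) : Prop where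
  wpos : ∀ i, 1 ≤ w i
  mem : ∀ i, x i ∈ F (w i)
  comm : ∀ i j, x i * x j - x j * x i ∈
    Flt k F (w i + w j) ⊔ Submodule.span k (x '' {l | w l = w i + w j})
  gen : ∀ n : ℕ, 1 ≤ n →
    F n ≤ Flt k F n ⊔ Submodule.span k {z | ∃ i, w i ≤ n ∧ ∃ y ∈ F (n - w i), z = x i * y}

/-- The data of the infinite case for a given length `m`. -/
structure IsIndep (F : ℕ → Submodule k H) {m : ℕ} (x : Fin m → H) (n : Fin m → ℕ) : Prop where
  npos : ∀ i, 1 ≤ n i
  prim : ∀ i, ApproxPrim k F (n i) (x i)
  indep : ∀ i, x i ∉ Flt k F (n i) ⊔ Submodule.span k (x '' {j | j < i ∧ n j = n i})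

end defs

end Pool.Agent.GK
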