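import Pool.Agent.Lib_helper11.GK.PBW
import Pool.Agent.Lib_helper14.GK.DICK
import Pool.Agent.Lib_helper16.GK.FILT
import Pool.Agent.Lib_helper77.GK.FLAG
import Pool.Agent.Lib_helper82.GK.IND
import Pool.Agent.Lib_helper82.GK.LIE

/-!
GK: the theorem from the other blocks. The assembly below was written by helper14 (block ASM).
-/

set_option autoImplicit false

universe u v

namespace Pool.Agent.GK

open TensorProduct Filter Topology

section
variable (k : Type u) [Field k] {H : Type v} [Ring H] [Bialgebra k H]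

/-- The growth rate of one subspace. -/
noncomputable def asm_L (V : Submodule k H) : ENNReal :=
  Filter.limsup
      (fun n : ℕ =>
        ENNReal.ofReal
          (Real.log ((Module.finrank k ↥(V ^ n) : ℕ) : ℝ) / Real.log (n : ℝ)))
      Filter.atTop

theorem asm_log_nat_mono {a b : ℕ} (h : a ≤ b) : Real.log (a : ℝ) ≤ Real.log (b : ℝ) := by
  rcases Nat.eq_zero_or_pos a with h0 | h0
  · rw [h0]
    simpa using Real.log_natCast_nonneg b
  · exact Real.log_le_log (by exact_mod_cast h0) (by exact_mod_cast h)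

theorem asm_L_mono {V V' : Submodule k H} (h : V ≤ V') (hV' : V'.FG) :
    asm_L k V ≤ asm_L k V' := by
  refine Filter.limsup_le_limsup (Filter.Eventually.of_forall (fun n => ?_))
  refine ENNReal.ofReal_le_ofReal ?_
  refine div_le_div_of_nonneg_right ?_ (Real.log_natCast_nonneg n)
  refine asm_log_nat_mono ?_
  have : Module.Finite k ↥(V' ^ n) := Module.Finite.iff_fg.2 (hV'.pow n)
  exact Submodule.finrank_mono (pow_le_pow_left' h n)

/-- Two-sided polynomial bounds give the growth rate. -/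
theorem asm_L_eq {V : Submodule k H} {r : ℕ} {c C : ℝ} (hc : 0 < c)
    (hlo : ∀ n : ℕ, 1 ≤ n → c * (n : ℝ) ^ r ≤ (Module.finrank k ↥(V ^ n) : ℝ))
    (hhi : ∀ n : ℕ, 1 ≤ n → (Module.finrank k ↥(V ^ n) : ℝ) ≤ C * (n : ℝ) ^ r) :
    asm_L k V = (r : ENNReal) := by
  have hC : 0 < C := by
    have h1 := (hlo 1 le_rfl).trans (hhi 1 le_rfl)
    simp only [Nat.cast_one, one_pow, mul_one] at h1
    linarith
  have hlog : Tendsto (fun n : ℕ => Real.log (n : ℝ)) atTop atTop :=
    Real.tendsto_log_atTop.comp tendsto_natCast_atTop_atTop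
  have hconst : ∀ a : ℝ, Tendsto (fun n : ℕ => a / Real.log (n : ℝ) + r) atTop (𝓝 (r : ℝ)) := by
    intro a
    have h1 : Tendsto (fun n : ℕ => a / Real.log (n : ℝ)) atTop (𝓝 0) :=
      tendsto_const_nhds.div_atTop hlog
    simpa using h1.add_const (r : ℝ)
  have hmain : Tendsto (fun n : ℕ =>
      Real.log ((Module.finrank k ↥(V ^ n) : ℕ) : ℝ) / Real.log (n : ℝ)) atTop (𝓝 (r : ℝ)) := by
    refine tendsto_of_tendsto_of_tendsto_of_le_of_le' (hconst (Real.log c))
      (hconst (Real.log C)) ?_ ?_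
    · filter_upwards [eventually_ge_atTop 2] with n hn
      have hn0 : (0 : ℝ) < (n : ℝ) := by
        have : 0 < n := by omega
        exact_mod_cast this
      have hln : 0 < Real.log (n : ℝ) := Real.log_pos (by exact_mod_cast hn)
      rw [div_add' _ _ _ hln.ne', div_le_div_iff_of_pos_right hln]
      have h1 := hlo n (by omega)
      have h2 := Real.log_le_log (by positivity) h1
      rw [Real.log_mul hc.ne' (by positivity), Real.log_pow] at h2
      exact h2
    · filter_upwards [eventually_ge_atTop 2] with n hn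
      have hn0 : (0 : ℝ) < (n : ℝ) := by
        have : 0 < n := by omega
        exact_mod_cast this
      have hln : 0 < Real.log (n : ℝ) := Real.log_pos (by exact_mod_cast hn)
      rw [div_add' _ _ _ hln.ne', div_le_div_iff_of_pos_right hln]
      have h1 := hhi n (by omega)
      have h3 : (0 : ℝ) < (Module.finrank k ↥(V ^ n) : ℝ) :=
        lt_of_lt_of_le (by positivity) (hlo n (by omega))
      have h2 := Real.log_le_log h3 h1
      rw [Real.log_mul hC.ne' (by positivity), Real.log_pow] at h2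
      exact h2
  have h := ENNReal.tendsto_ofReal hmain
  rw [ENNReal.ofReal_natCast] at h
  exact h.limsup_eq

/-- Stretched exponential lower bounds along a subsequence give infinite growth rate. -/
theorem asm_L_top {V : Submodule k H} {W : ℕ} (hW : 1 ≤ W)
    (hlo : ∀ m : ℕ, 1 ≤ m → 2 ^ m ≤ Module.finrank k ↥(V ^ (W * m ^ 2))) :
    asm_L k V = ⊤ := by
  set f : ℕ → ENNReal := fun n : ℕ =>
        ENNReal.ofReal
          (Real.log ((Module.finrank k ↥(V ^ n) : ℕ) : ℝ) / Real.log (n : ℝ)) with hf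
  have hW0 : (0 : ℝ) < (W : ℝ) := by exact_mod_cast hW
  have hg : Tendsto (fun m : ℕ => W * m ^ 2) atTop atTop := by
    refine tendsto_atTop_mono (fun m => ?_) tendsto_id
    calc m ≤ m ^ 2 := Nat.le_self_pow (by norm_num) m
      _ = 1 * m ^ 2 := (one_mul _).symm
      _ ≤ W * m ^ 2 := Nat.mul_le_mul_right _ hW
  -- the ratio along the subsequence
  have hratio : Tendsto (fun m : ℕ => (Real.log (W : ℝ) + 2 * Real.log (m : ℝ)) /
      ((m : ℝ) * Real.log 2)) atTop (𝓝 0) := by
    have h1 : Tendsto (fun m : ℕ => Real.log (m : ℝ) ^ 1 / (Real.log 2 * (m : ℝ) + 0))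
        atTop (𝓝 0) :=
      (Real.tendsto_pow_log_div_mul_add_atTop (Real.log 2) 0 1
        (Real.log_pos (by norm_num)).ne').comp tendsto_natCast_atTop_atTop
    have h2 : Tendsto (fun m : ℕ => Real.log (W : ℝ) / (Real.log 2 * (m : ℝ))) atTop (𝓝 0) :=
      tendsto_const_nhds.div_atTop
        (tendsto_natCast_atTop_atTop.const_mul_atTop (Real.log_pos (by norm_num)))
    have h3 := h2.add (h1.const_mul 2)
    simp only [mul_zero, add_zero] at h3
    refine h3.congr (fun m => ?_)
    rw [pow_one, add_div]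
    ring
  have hpos : ∀ᶠ m : ℕ in atTop, 0 < (Real.log (W : ℝ) + 2 * Real.log (m : ℝ)) /
      ((m : ℝ) * Real.log 2) := by
    filter_upwards [eventually_ge_atTop 2] with m hm
    have hm0 : (0 : ℝ) < (m : ℝ) := by
      have : 0 < m := by omega
      exact_mod_cast this
    have hlm : 0 < Real.log (m : ℝ) := Real.log_pos (by exact_mod_cast hm)
    have hlW : 0 ≤ Real.log (W : ℝ) := Real.log_natCast_nonneg W
    have hl2 : 0 < Real.log 2 := Real.log_pos (by norm_num)
    positivity
  have hinv : Tendsto (fun m : ℕ => ((Real.log (W : ℝ) + 2 * Real.log (m : ℝ)) /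
      ((m : ℝ) * Real.log 2))⁻¹) atTop atTop := by
    refine Tendsto.inv_tendsto_nhdsGT_zero ?_
    rw [tendsto_nhdsWithin_iff]
    exact ⟨hratio, hpos⟩
  have hcomp : Tendsto (f ∘ fun m : ℕ => W * m ^ 2) atTop (𝓝 ⊤) := by
    have h1 := ENNReal.tendsto_ofReal_atTop.comp hinv
    refine tendsto_of_tendsto_of_tendsto_of_le_of_le' h1 tendsto_const_nhds ?_
      (Eventually.of_forall (fun m => le_top))
    filter_upwards [eventually_ge_atTop 2] with m hm
    simp only [Function.comp, hf]
    refine ENNReal.ofReal_le_ofReal ?_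
    have hm0 : (0 : ℝ) < (m : ℝ) := by
      have : 0 < m := by omega
      exact_mod_cast this
    have hlm : 0 < Real.log (m : ℝ) := Real.log_pos (by exact_mod_cast hm)
    have hlW : 0 ≤ Real.log (W : ℝ) := Real.log_natCast_nonneg W
    rw [inv_div]
    have hlogn : Real.log ((W * m ^ 2 : ℕ) : ℝ) = Real.log (W : ℝ) + 2 * Real.log (m : ℝ) := by
      push_cast
      rw [Real.log_mul hW0.ne' (by positivity), Real.log_pow]
      norm_num
    rw [hlogn]
    refine div_le_div_of_nonneg_right ?_ (by positivity)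
    have h2 : ((2 : ℝ)) ^ m ≤ (Module.finrank k ↥(V ^ (W * m ^ 2)) : ℝ) := by
      exact_mod_cast hlo m (by omega)
    have h3 := Real.log_le_log (by positivity) h2
    rw [Real.log_pow] at h3
    exact h3
  have h1 : limsup (f ∘ fun m : ℕ => W * m ^ 2) atTop = ⊤ := hcomp.limsup_eq
  have h2 : limsup (f ∘ fun m : ℕ => W * m ^ 2) atTop ≤ limsup f atTop := by
    rw [limsup_comp]
    exact limsup_le_limsup_of_le hg
  rw [h1, top_le_iff] at h2
  exact h2

theorem asm_L_val (hc : IsConnectedBialgebra k H) (V : Submodule k H) (hV : V.FG) :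
    ∃ V' : Submodule k H, V ≤ V' ∧ 1 ≤ V' ∧ V'.FG ∧
      (asm_L k V' = ⊤ ∨ ∃ m : ℕ, asm_L k V' = (m : ENNReal)) := by
  obtain ⟨m, c, hVc, hcc⟩ := flag_pr k hc V hV
  obtain ⟨F, w, M, hF, hF1, hF2⟩ := filt_pr k c hcc
  refine ⟨Submodule.span k (insert (1 : H) (Set.range c)), hVc, ?_, ?_, ?_⟩
  · rw [Submodule.one_le]
    exact Submodule.subset_span (Set.mem_insert _ _)
  · exact Submodule.fg_span ((Set.finite_range c).insert 1)
  · set D := Submodule.span k (insert (1 : H) (Set.range c)) with hD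
    have hDfg : D.FG := Submodule.fg_span ((Set.finite_range c).insert 1)
    have hfin : ∀ n, Module.Finite k ↥(D ^ n) := fun n => Module.Finite.iff_fg.2 (hDfg.pow n)
    have hfinF : ∀ n, Module.Finite k ↥(F n) := fun n => Module.Finite.iff_fg.2 (hF.fg n)
    have hle1 : ∀ n, Module.finrank k ↥(F n) ≤ Module.finrank k ↥(D ^ n) := fun n => by
      have := hfin n
      exact Submodule.finrank_mono (hF1 n)
    have hle2 : ∀ n, Module.finrank k ↥(D ^ n) ≤ Module.finrank k ↥(F ((M + 1) * n)) := fun n => by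
      have := hfinF ((M + 1) * n)
      exact Submodule.finrank_mono ((hF2 n).trans (hF.mono (Nat.mul_le_mul_right n (Nat.le_succ M))))
    rcases dich_pr k hF with ⟨W, hind⟩ | ⟨d, x, w', hlie⟩
    · left
      refine asm_L_top k (W := W + 1) (Nat.succ_pos _) (fun m hm => ?_)
      obtain ⟨x, n, hx, hn⟩ := hind m
      refine (ind_pr k hF hx).trans (le_trans ?_ (hle1 _))
      have := hfinF ((W + 1) * m ^ 2)
      refine Submodule.finrank_mono (hF.mono ?_)
      calc ∑ i, n i ≤ ∑ _i : Fin m, W * m :=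
            Finset.sum_le_sum (fun i _ => (hn i).trans (Nat.mul_le_mul_left W i.isLt))
        _ = m * (W * m) := by simp
        _ = W * m ^ 2 := by ring
        _ ≤ (W + 1) * m ^ 2 := Nat.mul_le_mul_right _ (Nat.le_succ W)
    · right
      obtain ⟨E, hE, h0, hcard⟩ := pbw_pr k hF.zero hF.mono hF.mul hlie
      obtain ⟨r, c', C, hc', hb⟩ := dick_pr w' hlie.wpos E hE h0
      refine ⟨r, asm_L_eq k (c := c') (C := C * ((M : ℝ) + 1) ^ r) hc' (fun n hn => ?_)
        (fun n hn => ?_)⟩
      · have h1 := (hb n hn).1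
        rw [← hcard n] at h1
        exact h1.trans (by exact_mod_cast hle1 n)
      · have hn' : 1 ≤ (M + 1) * n := Nat.one_le_iff_ne_zero.2 (by positivity)
        have h1 := (hb _ hn').2
        rw [← hcard _] at h1
        calc (Module.finrank k ↥(D ^ n) : ℝ) ≤ (Module.finrank k ↥(F ((M + 1) * n)) : ℝ) := by
              exact_mod_cast hle2 n
          _ ≤ C * (((M + 1) * n : ℕ) : ℝ) ^ r := h1
          _ = C * ((M : ℝ) + 1) ^ r * (n : ℝ) ^ r := by
              push_cast
              rw [mul_pow]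
              ring

end

/-- A supremum of a nonempty family of elements of `ℕ ∪ {∞}` is in `ℕ ∪ {∞}`. -/
theorem asm_sup {ι : Type v} [Nonempty ι] (f : ι → ENNReal)
    (hf : ∀ i, f i = ⊤ ∨ ∃ m : ℕ, f i = (m : ENNReal)) :
    (⨆ i, f i) = ⊤ ∨ ∃ m : ℕ, (⨆ i, f i) = (m : ENNReal) := by
  by_cases htop : ∃ i, f i = ⊤
  · obtain ⟨i, hi⟩ := htop
    left
    rw [eq_top_iff, ← hi]
    exact le_iSup f i
  · have hg : ∀ i, ∃ m : ℕ, f i = (m : ENNReal) := by
      intro i
      rcases hf i with h | h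
      · exact absurd ⟨i, h⟩ htop
      · exact h
    choose g hg using hg
    by_cases hb : BddAbove (Set.range g)
    · right
      obtain ⟨i₀, hi₀⟩ := Nat.sSup_mem (Set.range_nonempty g) hb
      refine ⟨sSup (Set.range g), le_antisymm (iSup_le (fun i => ?_)) ?_⟩
      · rw [hg i]
        exact Nat.cast_le.2 (le_csSup hb ⟨i, rfl⟩)
      · rw [← hi₀, ← hg i₀]
        exact le_iSup f i₀
    · left
      rw [iSup_eq_top]
      intro b hbt
      obtain ⟨n, hn⟩ := ENNReal.exists_nat_gt hbt.ne
      rw [not_bddAbove_iff] at hb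
      obtain ⟨_, ⟨i, rfl⟩, hi⟩ := hb n
      refine ⟨i, hn.trans ?_⟩
      rw [hg i]
      exact Nat.cast_lt.2 hi

/-- ASM -/
theorem main_pr (k : Type u) [Field k] (H : Type v) [Ring H] [Bialgebra k H]
    (hc : IsConnectedBialgebra k H) :
    GKdim k H = ⊤ ∨ ∃ m : ℕ, GKdim k H = (m : ENNReal) := by
  let ι := {V : Submodule k H // (1 ≤ V ∧ V.FG) ∧
    (asm_L k V = ⊤ ∨ ∃ m : ℕ, asm_L k V = (m : ENNReal))}
  have hkey : GKdim k H = ⨆ i : ι, asm_L k i.1 := by
    apply le_antisymm
    · refine iSup₂_le (fun V hV => ?_)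
      obtain ⟨V', hVV', h1, hfg, hval⟩ := asm_L_val k hc V hV.2
      exact (asm_L_mono k hVV' hfg).trans
        (le_iSup (fun i : ι => asm_L k i.1) ⟨V', ⟨h1, hfg⟩, hval⟩)
    · refine iSup_le (fun i => ?_)
      exact le_iSup₂_of_le i.1 i.2.1 le_rfl
  have : Nonempty ι := by
    obtain ⟨V', hVV', h1, hfg, hval⟩ := asm_L_val k hc (⊥ : Submodule k H) Submodule.fg_bot
    exact ⟨⟨V', ⟨h1, hfg⟩, hval⟩⟩
  rw [hkey]
  exact asm_sup _ (fun i => i.2.2)

end Pool.Agent.GK
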