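import Pool.Agent.Lib_helper11.GK.Defs

set_option autoImplicit false

universe u v

namespace Pool.Agent.GK

section monomials

variable {k : Type u} [Field k] {H : Type v} [Ring H] [Algebra k H] {d : ℕ}

/-- weight of an exponent -/
def pbwWt (w : Fin d → ℕ) (a : Fin d → ℕ) : ℕ := ∑ i, a i * w i

/-- length of an exponent -/
def pbwLen (a : Fin d → ℕ) : ℕ := ∑ i, a i

/-- ordered monomial -/
def pbwMon (x : Fin d → H) (a : Fin d → ℕ) : H :=
  ((List.finRange d).map (fun i => x i ^ a i)).prod

/-- unit exponent -/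
def pbwE (i : Fin d) : Fin d → ℕ := Pi.single i 1

lemma pbw_wt_add (w a b : Fin d → ℕ) : pbwWt w (a + b) = pbwWt w a + pbwWt w b := by
  simp [pbwWt, add_mul, Finset.sum_add_distrib]

lemma pbw_len_add (a b : Fin d → ℕ) : pbwLen (a + b) = pbwLen a + pbwLen b := by
  simp [pbwLen, Finset.sum_add_distrib]

lemma pbw_wt_e (w : Fin d → ℕ) (i : Fin d) : pbwWt w (pbwE i) = w i := by
  simp [pbwWt, pbwE, Pi.single_apply]

lemma pbw_len_e (i : Fin d) : pbwLen (pbwE i) = 1 := by
  simp [pbwLen, pbwE, Pi.single_apply]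

lemma pbw_mon_zero (x : Fin d → H) : pbwMon x 0 = 1 := by
  unfold pbwMon
  apply List.prod_eq_one
  intro y hy
  simp at hy
  exact hy.2

lemma pbw_wt_zero_iff (w : Fin d → ℕ) (hw : ∀ i, 1 ≤ w i) (a : Fin d → ℕ) :
    pbwWt w a = 0 ↔ a = 0 := by
  unfold pbwWt
  rw [Finset.sum_eq_zero_iff]
  constructor
  · intro h
    ext i
    have := h i (Finset.mem_univ i)
    have hi := hw i
    rcases Nat.mul_eq_zero.1 this with h1 | h1
    · simpa using h1
    · omega
  · rintro rfl i _
    simp

lemma pbw_cons_list (x : Fin d → H) (b : Fin d → ℕ) (i : Fin d) (hb : ∀ l < i, b l = 0) :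
    ∀ L : List (Fin d), L.Pairwise (· < ·) → i ∈ L →
      x i * (L.map (fun l => x l ^ b l)).prod = (L.map (fun l => x l ^ (b + pbwE i) l)).prod := by
  intro L
  induction L with
  | nil => intro _ h; simp at h
  | cons l L ih =>
    intro hp hi
    rw [List.pairwise_cons] at hp
    simp only [List.map_cons, List.prod_cons]
    by_cases hl : l = i
    · subst hl
      have h1 : (L.map (fun j => x j ^ (b + pbwE l) j)) = (L.map (fun j => x j ^ b j)) := by
        apply List.map_congr_left
        intro j hj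
        have hlt := hp.1 j hj
        have hne : j ≠ l := ne_of_gt hlt
        simp [pbwE, hne]
      rw [h1, ← mul_assoc]
      congr 1
      simp [pbwE, pow_succ']
    · have hmem : i ∈ L := by
        rcases List.mem_cons.1 hi with h | h
        · exact absurd h.symm hl
        · exact h
      have hlt : l < i := hp.1 i hmem
      have h0 : b l = 0 := hb l hlt
      have h1 : (b + pbwE i) l = 0 := by
        simp [pbwE, h0, hl]
      rw [h0, h1, pow_zero, one_mul, one_mul]
      exact ih hp.2 hmem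

lemma pbw_cons (x : Fin d → H) (b : Fin d → ℕ) (i : Fin d) (hb : ∀ l < i, b l = 0) :
    x i * pbwMon x b = pbwMon x (b + pbwE i) := by
  unfold pbwMon
  exact pbw_cons_list x b i hb _ (List.pairwise_lt_finRange d) (List.mem_finRange i)

/-- if `b j > 0` then `b = b' + e j` -/
lemma pbw_sub (b : Fin d → ℕ) (j : Fin d) (hj : 0 < b j) :
    ∃ b' : Fin d → ℕ, b = b' + pbwE j := by
  refine ⟨fun l => b l - pbwE j l, ?_⟩
  ext l
  by_cases h : l = j
  · subst h
    simp [pbwE]
    omega
  · simp [pbwE, h]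

/-- span of monomials of smaller (weight, length) -/
def pbwS (k : Type u) [Field k] [Algebra k H] (x : Fin d → H) (w : Fin d → ℕ) (N r : ℕ) :
    Submodule k H :=
  Submodule.span k {z | ∃ c, (pbwWt w c < N ∨ (pbwWt w c = N ∧ pbwLen c < r)) ∧ z = pbwMon x c}

/-- span of monomials of weight at most `N` -/
def pbwX (k : Type u) [Field k] [Algebra k H] (x : Fin d → H) (w : Fin d → ℕ) (N : ℕ) :
    Submodule k H :=
  Submodule.span k {z | ∃ c, pbwWt w c ≤ N ∧ z = pbwMon x c}

lemma pbwX_mono (x : Fin d → H) (w : Fin d → ℕ) {N M : ℕ} (h : N ≤ M) :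
    pbwX k x w N ≤ pbwX k x w M := by
  apply Submodule.span_mono
  rintro z ⟨c, hc, rfl⟩
  exact ⟨c, hc.trans h, rfl⟩

lemma pbwS_le_X (x : Fin d → H) (w : Fin d → ℕ) (N r : ℕ) :
    pbwS k x w N r ≤ pbwX k x w N := by
  apply Submodule.span_mono
  rintro z ⟨c, hc, rfl⟩
  exact ⟨c, by omega, rfl⟩

lemma pbwX_le_S (x : Fin d → H) (w : Fin d → ℕ) {N M r : ℕ} (h : M < N) :
    pbwX k x w M ≤ pbwS k x w N r := by
  apply Submodule.span_mono
  rintro z ⟨c, hc, rfl⟩
  exact ⟨c, Or.inl (by omega), rfl⟩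

lemma pbwS_mono (x : Fin d → H) (w : Fin d → ℕ) {N M r s : ℕ} (h : N < M ∨ (N = M ∧ r ≤ s)) :
    pbwS k x w N r ≤ pbwS k x w M s := by
  apply Submodule.span_mono
  rintro z ⟨c, hc, rfl⟩
  exact ⟨c, by omega, rfl⟩

/-- Claim A at total weight `N`, total length `r` -/
def pbwA (k : Type u) [Field k] [Algebra k H] (x : Fin d → H) (w : Fin d → ℕ) (N r : ℕ) : Prop :=
  ∀ (i : Fin d) (b : Fin d → ℕ), pbwWt w b + w i = N → pbwLen b + 1 = r →
    x i * pbwMon x b - pbwMon x (b + pbwE i) ∈ pbwS k x w N r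

lemma pbwA_mem {x : Fin d → H} {w : Fin d → ℕ} {N r : ℕ} (h : pbwA k x w N r)
    {i : Fin d} {b : Fin d → ℕ} (h1 : pbwWt w b + w i = N) (h2 : pbwLen b + 1 = r) :
    x i * pbwMon x b ∈ pbwS k x w N (r + 1) := by
  have h3 := h i b h1 h2
  have h4 : pbwMon x (b + pbwE i) ∈ pbwS k x w N (r + 1) := by
    apply Submodule.subset_span
    refine ⟨_, Or.inr ⟨?_, ?_⟩, rfl⟩
    · rw [pbw_wt_add, pbw_wt_e]; exact h1
    · rw [pbw_len_add, pbw_len_e]; omega
  have h5 := pbwS_mono (k := k) x w (N := N) (M := N) (r := r) (s := r + 1)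
    (Or.inr ⟨rfl, Nat.le_succ r⟩) h3
  have := Submodule.add_mem _ h5 h4
  simpa using this

end monomials

section main

variable {k : Type u} [Field k] {H : Type v} [Ring H] [Bialgebra k H] {d : ℕ}
  {F : ℕ → Submodule k H} {x : Fin d → H} {w : Fin d → ℕ}

lemma pbw_mon_mem (hzero : F 0 = Submodule.span k {1}) (hmul : ∀ a b : ℕ, ∀ x ∈ F a, ∀ y ∈ F b, x * y ∈ F (a + b))
    (hmem : ∀ i, x i ∈ F (w i)) (a : Fin d → ℕ) : pbwMon x a ∈ F (pbwWt w a) := by
  have hpow : ∀ (i : Fin d) (n : ℕ), x i ^ n ∈ F (n * w i) := by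
    intro i n
    induction n with
    | zero => simp [hzero, Submodule.mem_span_singleton_self]
    | succ n ih =>
      rw [pow_succ, Nat.succ_mul]
      exact hmul _ _ _ ih _ (hmem i)
  have hlist : ∀ L : List (Fin d), (L.map (fun i => x i ^ a i)).prod ∈ F ((L.map (fun i => a i * w i)).sum) := by
    intro L
    induction L with
    | nil => simp [hzero, Submodule.mem_span_singleton_self]
    | cons l L ih =>
      simp only [List.map_cons, List.prod_cons, List.sum_cons]
      exact hmul _ _ _ (hpow l _) _ ih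
  have := hlist (List.finRange d)
  have hs : ((List.finRange d).map (fun i => a i * w i)).sum = pbwWt w a := by
    unfold pbwWt
    rw [← List.ofFn_eq_map, List.sum_ofFn]
  rw [hs] at this
  exact this

lemma pbw_claim (hzero : F 0 = Submodule.span k {1}) (hmono : Monotone F)
    (hmul : ∀ a b : ℕ, ∀ x ∈ F a, ∀ y ∈ F b, x * y ∈ F (a + b))
    (hx : IsLieGen k F x w) :
    ∀ N : ℕ, F N = pbwX k x w N ∧ ∀ r, pbwA k x w N r := by
  intro N
  induction N using Nat.strong_induction_on with
  | _ N ihN =>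
  have hA : ∀ r, pbwA k x w N r := by
    intro r
    induction r using Nat.strong_induction_on with
    | _ r ihr =>
    intro i b hwt hlen
    by_cases hlow : ∀ l < i, b l = 0
    · rw [pbw_cons x b i hlow, sub_self]
      exact Submodule.zero_mem _
    · -- the first index j < i with b j > 0
      push Not at hlow
      obtain ⟨j, hji, hbj, hjmin⟩ : ∃ j, j < i ∧ b j ≠ 0 ∧ ∀ l < j, b l = 0 := by
        have hne : (Finset.univ.filter (fun l : Fin d => b l ≠ 0)).Nonempty := by
          obtain ⟨l, _, hl⟩ := hlow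
          exact ⟨l, by simp [hl]⟩
        refine ⟨(Finset.univ.filter (fun l : Fin d => b l ≠ 0)).min' hne, ?_, ?_, ?_⟩
        · obtain ⟨l, hli, hl⟩ := hlow
          exact lt_of_le_of_lt (Finset.min'_le _ l (by simp [hl])) hli
        · have := Finset.min'_mem _ hne
          simpa using this
        · intro l hl
          by_contra hc
          exact absurd (Finset.min'_le _ l (by simp [hc])) (not_le.2 hl)
      obtain ⟨b', rfl⟩ := pbw_sub b j (Nat.pos_of_ne_zero hbj)
      have hb'low : ∀ l < j, b' l = 0 := by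
        intro l hl
        have := hjmin l hl
        simp at this
        exact this.1
      have hmb : pbwMon x (b' + pbwE j) = x j * pbwMon x b' := (pbw_cons x b' j hb'low).symm
      rw [pbw_wt_add, pbw_wt_e] at hwt
      rw [pbw_len_add, pbw_len_e] at hlen
      have hwi := hx.wpos i
      have hwj := hx.wpos j
      -- first part
      have hI : x i * pbwMon x b' - pbwMon x (b' + pbwE i) ∈ pbwS k x w (N - w j) (r - 1) :=
        (ihN (N - w j) (by omega)).2 (r - 1) i b' (by omega) (by omega)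
      have hmulS : ∀ z ∈ pbwS k x w (N - w j) (r - 1), x j * z ∈ pbwS k x w N r := by
        intro z hz
        refine Submodule.span_induction (p := fun z _ => x j * z ∈ pbwS k x w N r) ?_ ?_ ?_ ?_ hz
        · rintro z ⟨c, hc, rfl⟩
          rcases hc with hc | ⟨hc1, hc2⟩
          · have h1 := pbwA_mem ((ihN (pbwWt w c + w j) (by omega)).2 (pbwLen c + 1)) (i := j) (b := c) rfl rfl
            exact pbwS_mono x w (Or.inl (by omega)) h1
          · have h1 := pbwA_mem (ihr (pbwLen c + 1) (by omega)) (i := j) (b := c) (by omega) rfl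
            exact pbwS_mono x w (Or.inr ⟨rfl, by omega⟩) h1
        · simp
        · intro a b _ _ ha hb
          rw [mul_add]
          exact Submodule.add_mem _ ha hb
        · intro t a _ ha
          rw [mul_smul_comm]
          exact Submodule.smul_mem _ _ ha
      have h1 : x j * (x i * pbwMon x b') - x j * pbwMon x (b' + pbwE i) ∈ pbwS k x w N r := by
        rw [← mul_sub]
        exact hmulS _ hI
      have hlow2 : ∀ l < j, (b' + pbwE i) l = 0 := by
        intro l hl
        have hne : l ≠ i := ne_of_lt (hl.trans hji)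
        simp [hb'low l hl, pbwE, hne]
      have h2 : x j * pbwMon x (b' + pbwE i) = pbwMon x (b' + pbwE j + pbwE i) := by
        rw [pbw_cons x _ j hlow2, add_right_comm]
      -- commutator part
      have hcm := hx.comm i j
      have h3 : (x i * x j - x j * x i) * pbwMon x b' ∈ pbwS k x w N r := by
        obtain ⟨f, hf, g, hg, hfg⟩ := Submodule.mem_sup.1 hcm
        rw [← hfg, add_mul]
        apply Submodule.add_mem
        · have hfm : f ∈ F (w i + w j - 1) := by
            obtain ⟨q, hq⟩ : ∃ q, w i + w j = q + 1 := ⟨w i + w j - 1, by omega⟩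
            rw [hq] at hf ⊢
            exact hf
          have := hmul _ _ _ hfm _ (pbw_mon_mem hzero hmul hx.mem b')
          have h4 : f * pbwMon x b' ∈ F (N - 1) := hmono (by omega) this
          rw [(ihN (N - 1) (by omega)).1] at h4
          exact pbwX_le_S x w (by omega) h4
        · refine Submodule.span_induction (p := fun z _ => z * pbwMon x b' ∈ pbwS k x w N r) ?_ ?_ ?_ ?_ hg
          · rintro z ⟨l, hl, rfl⟩
            simp only [Set.mem_ofPred_eq] at hl
            have h5 := pbwA_mem (ihr (r - 1) (by omega)) (i := l) (b := b') (by omega) (by omega)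
            exact pbwS_mono x w (Or.inr ⟨rfl, by omega⟩) h5
          · simp
          · intro a b _ _ ha hb
            rw [add_mul]
            exact Submodule.add_mem _ ha hb
          · intro t a _ ha
            rw [smul_mul_assoc]
            exact Submodule.smul_mem _ _ ha
      have h6 := Submodule.add_mem _ h1 h3
      have h7 : x i * pbwMon x (b' + pbwE j) - pbwMon x (b' + pbwE j + pbwE i)
          = x j * (x i * pbwMon x b') - x j * pbwMon x (b' + pbwE i)
            + (x i * x j - x j * x i) * pbwMon x b' := by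
        rw [hmb, h2]
        noncomm_ring
      rw [h7]
      exact h6
  refine ⟨?_, hA⟩
  apply le_antisymm
  · rcases Nat.eq_zero_or_pos N with rfl | hN
    · rw [hzero, Submodule.span_singleton_le_iff_mem]
      apply Submodule.subset_span
      exact ⟨0, by simp [pbwWt], (pbw_mon_zero x).symm⟩
    · refine (hx.gen N hN).trans (sup_le ?_ ?_)
      · obtain ⟨M, rfl⟩ : ∃ M, N = M + 1 := ⟨N - 1, by omega⟩
        show F M ≤ _
        rw [(ihN M (by omega)).1]
        exact pbwX_mono x w (by omega)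
      · rw [Submodule.span_le]
        rintro z ⟨i, hi, y, hy, rfl⟩
        have hwi := hx.wpos i
        rw [(ihN (N - w i) (by omega)).1] at hy
        show x i * y ∈ pbwX k x w N
        refine Submodule.span_induction (p := fun z _ => x i * z ∈ pbwX k x w N) ?_ ?_ ?_ ?_ hy
        · rintro z ⟨c, hc, rfl⟩
          rcases Nat.lt_or_ge (pbwWt w c + w i) N with h | h
          · have h1 := pbwA_mem ((ihN (pbwWt w c + w i) h).2 (pbwLen c + 1)) (i := i) (b := c) rfl rfl
            exact pbwX_mono x w h.le (pbwS_le_X x w _ _ h1)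
          · have h1 := pbwA_mem (hA (pbwLen c + 1)) (i := i) (b := c) (by omega) rfl
            exact pbwS_le_X x w _ _ h1
        · simp
        · intro a b _ _ ha hb
          rw [mul_add]
          exact Submodule.add_mem _ ha hb
        · intro t a _ ha
          rw [mul_smul_comm]
          exact Submodule.smul_mem _ _ ha
  · unfold pbwX
    rw [Submodule.span_le]
    rintro z ⟨c, hc, rfl⟩
    exact hmono hc (pbw_mon_mem hzero hmul hx.mem c)

end main


section standard

variable {k : Type u} [Field k] {H : Type v} [Ring H] [Algebra k H] {d : ℕ}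

/-- the order key of an exponent: weight, length, lexicographic -/
def pbwKey (w : Fin d → ℕ) (a : Fin d → ℕ) : ℕ ×ₗ (ℕ ×ₗ Lex (Fin d → ℕ)) :=
  toLex (pbwWt w a, toLex (pbwLen a, toLex a))

lemma pbw_key_lt_iff (w a b : Fin d → ℕ) : pbwKey w a < pbwKey w b ↔
    pbwWt w a < pbwWt w b ∨ (pbwWt w a = pbwWt w b ∧ (pbwLen a < pbwLen b ∨
      (pbwLen a = pbwLen b ∧ toLex a < toLex b))) := by
  unfold pbwKey
  rw [Prod.Lex.toLex_lt_toLex]
  simp only
  rw [Prod.Lex.toLex_lt_toLex]

lemma pbw_key_inj (w : Fin d → ℕ) {a b : Fin d → ℕ} (h : pbwKey w a = pbwKey w b) : a = b := by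
  unfold pbwKey at h
  have h1 := congrArg ofLex h
  simp only [ofLex_toLex, Prod.mk.injEq] at h1
  have h2 := congrArg ofLex h1.2
  simp only [ofLex_toLex, Prod.mk.injEq] at h2
  exact toLex.injective h2.2

lemma pbw_key_add (w a b c : Fin d → ℕ) (h : pbwKey w a < pbwKey w b) :
    pbwKey w (a + c) < pbwKey w (b + c) := by
  rw [pbw_key_lt_iff] at h ⊢
  rw [pbw_wt_add, pbw_wt_add, pbw_len_add, pbw_len_add]
  rcases h with h | ⟨h1, h | ⟨h2, h3⟩⟩
  · left; omega
  · right; exact ⟨by omega, Or.inl (by omega)⟩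
  · right
    refine ⟨by omega, Or.inr ⟨by omega, ?_⟩⟩
    rw [toLex_add, toLex_add]
    exact add_lt_add_left h3 _

lemma pbw_key_wf (w : Fin d → ℕ) : WellFounded (fun a b : Fin d → ℕ => pbwKey w a < pbwKey w b) := by
  have : WellFoundedLT (Lex (Fin d → ℕ)) := inferInstance
  exact InvImage.wf (pbwKey w) wellFounded_lt

/-- span of the monomials strictly below `a` -/
def pbwM (k : Type u) [Field k] [Algebra k H] (x : Fin d → H) (w : Fin d → ℕ) (a : Fin d → ℕ) :
    Submodule k H :=
  Submodule.span k {z | ∃ b, pbwKey w b < pbwKey w a ∧ z = pbwMon x b}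

/-- the standard exponents -/
def pbwStd (k : Type u) [Field k] [Algebra k H] (x : Fin d → H) (w : Fin d → ℕ) :
    Set (Fin d → ℕ) := {a | pbwMon x a ∉ pbwM k x w a}

lemma pbwM_mono (x : Fin d → H) (w : Fin d → ℕ) {a b : Fin d → ℕ} (h : pbwKey w a ≤ pbwKey w b) :
    pbwM k x w a ≤ pbwM k x w b := by
  apply Submodule.span_mono
  rintro z ⟨c, hc, rfl⟩
  exact ⟨c, hc.trans_le h, rfl⟩

lemma pbwS_le_M (x : Fin d → H) (w : Fin d → ℕ) (a : Fin d → ℕ) :
    pbwS k x w (pbwWt w a) (pbwLen a) ≤ pbwM k x w a := by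
  apply Submodule.span_mono
  rintro z ⟨c, hc, rfl⟩
  refine ⟨c, ?_, rfl⟩
  rw [pbw_key_lt_iff]
  rcases hc with hc | ⟨h1, h2⟩
  · exact Or.inl hc
  · exact Or.inr ⟨h1, Or.inl h2⟩

lemma pbw_std_step (x : Fin d → H) (w : Fin d → ℕ) (hA : ∀ N r, pbwA k x w N r)
    (a : Fin d → ℕ) (i : Fin d) (ha : a ∉ pbwStd k x w) : a + pbwE i ∉ pbwStd k x w := by
  have ha' : pbwMon x a ∈ pbwM k x w a := by
    simpa [pbwStd] using ha
  have hstep : ∀ b : Fin d → ℕ, x i * pbwMon x b - pbwMon x (b + pbwE i) ∈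
      pbwM k x w (b + pbwE i) := by
    intro b
    have h := hA (pbwWt w b + w i) (pbwLen b + 1) i b rfl rfl
    have h2 := pbwS_le_M (k := k) x w (b + pbwE i)
    rw [pbw_wt_add, pbw_wt_e, pbw_len_add, pbw_len_e] at h2
    exact h2 h
  have h1 : x i * pbwMon x a ∈ pbwM k x w (a + pbwE i) := by
    refine Submodule.span_induction (p := fun z _ => x i * z ∈ pbwM k x w (a + pbwE i)) ?_ ?_ ?_ ?_ ha'
    · rintro z ⟨b, hb, rfl⟩
      have hlt := pbw_key_add w b a (pbwE i) hb
      have h3 := pbwM_mono x w hlt.le (hstep b)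
      have h4 : pbwMon x (b + pbwE i) ∈ pbwM k x w (a + pbwE i) :=
        Submodule.subset_span ⟨_, hlt, rfl⟩
      have := Submodule.add_mem _ h3 h4
      simpa using this
    · simp
    · intro u v _ _ hu hv
      rw [mul_add]
      exact Submodule.add_mem _ hu hv
    · intro t u _ hu
      rw [mul_smul_comm]
      exact Submodule.smul_mem _ _ hu
  have h2 := Submodule.sub_mem _ h1 (hstep a)
  simp only [sub_sub_cancel] at h2
  simpa [pbwStd] using h2

lemma pbw_std_down (x : Fin d → H) (w : Fin d → ℕ) (hA : ∀ N r, pbwA k x w N r) :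
    ∀ a ∈ pbwStd k x w, ∀ b ≤ a, b ∈ pbwStd k x w := by
  have key : ∀ n : ℕ, ∀ b c : Fin d → ℕ, pbwLen c = n → b + c ∈ pbwStd k x w → b ∈ pbwStd k x w := by
    intro n
    induction n with
    | zero =>
      intro b c hc h
      have : c = 0 := by
        unfold pbwLen at hc
        rw [Finset.sum_eq_zero_iff] at hc
        ext i
        simpa using hc i (Finset.mem_univ i)
      rw [this, add_zero] at h
      exact h
    | succ n ih =>
      intro b c hc h
      have hne : ∃ j, 0 < c j := by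
        by_contra hno
        push Not at hno
        have : pbwLen c = 0 := by
          unfold pbwLen
          exact Finset.sum_eq_zero (fun i _ => by have := hno i; omega)
        omega
      obtain ⟨j, hj⟩ := hne
      obtain ⟨c', rfl⟩ := pbw_sub c j hj
      rw [pbw_len_add, pbw_len_e] at hc
      rw [← add_assoc] at h
      by_contra hb
      have h1 : b + c' ∈ pbwStd k x w := by
        by_contra hbc
        exact pbw_std_step x w hA _ j hbc h
      exact hb (ih b c' (by omega) h1)
  intro a ha b hb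
  have : a = b + (a - b) := by
    ext i
    have h1 : b i ≤ a i := hb i
    show a i = b i + (a i - b i)
    omega
  rw [this] at ha
  exact key _ b (a - b) rfl ha

lemma pbw_std_span (x : Fin d → H) (w : Fin d → ℕ) (a : Fin d → ℕ) :
    pbwMon x a ∈ Submodule.span k {z | ∃ b ∈ pbwStd k x w, pbwKey w b ≤ pbwKey w a ∧ z = pbwMon x b} := by
  induction a using (pbw_key_wf w).induction with
  | _ a ih =>
  by_cases ha : a ∈ pbwStd k x w
  · exact Submodule.subset_span ⟨a, ha, le_rfl, rfl⟩
  · have ha' : pbwMon x a ∈ pbwM k x w a := by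
      simpa [pbwStd] using ha
    have hle : pbwM k x w a ≤ Submodule.span k {z | ∃ b ∈ pbwStd k x w, pbwKey w b ≤ pbwKey w a ∧ z = pbwMon x b} := by
      unfold pbwM
      rw [Submodule.span_le]
      rintro z ⟨b, hb, rfl⟩
      have h1 := ih b hb
      refine (Submodule.span_mono ?_) h1
      rintro z ⟨c, hc1, hc2, rfl⟩
      exact ⟨c, hc1, hc2.trans hb.le, rfl⟩
    exact hle ha'

lemma pbw_wt_le_of_key (w : Fin d → ℕ) {a b : Fin d → ℕ} (h : pbwKey w a ≤ pbwKey w b) :
    pbwWt w a ≤ pbwWt w b := by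
  rcases h.lt_or_eq with h | h
  · rw [pbw_key_lt_iff] at h
    omega
  · rw [pbw_key_inj w h]

lemma pbw_std_indep (x : Fin d → H) (w : Fin d → ℕ) :
    LinearIndependent k (fun a : pbwStd k x w => pbwMon x a.1) := by
  classical
  rw [linearIndependent_iff']
  intro s g hg
  by_contra hcon
  push Not at hcon
  obtain ⟨a0, ha0, hga0⟩ := hcon
  have hne : (s.filter (fun a => g a ≠ 0)).Nonempty := ⟨a0, by simp [ha0, hga0]⟩
  obtain ⟨a, ha, hmax⟩ := Finset.exists_max_image (s.filter (fun a => g a ≠ 0))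
    (fun a => pbwKey w a.1) hne
  rw [Finset.mem_filter] at ha
  have h1 : g a • pbwMon x a.1 = - ∑ b ∈ s.erase a, g b • pbwMon x b.1 := by
    rw [← Finset.add_sum_erase s _ ha.1] at hg
    exact eq_neg_of_add_eq_zero_left hg
  have h2 : ∑ b ∈ s.erase a, g b • pbwMon x b.1 ∈ pbwM k x w a.1 := by
    apply Submodule.sum_mem
    intro b hb
    rw [Finset.mem_erase] at hb
    by_cases hgb : g b = 0
    · rw [hgb, zero_smul]; exact Submodule.zero_mem _
    · apply Submodule.smul_mem
      apply Submodule.subset_span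
      refine ⟨b.1, ?_, rfl⟩
      have := hmax b (by simp [hb.2, hgb])
      refine lt_of_le_of_ne this ?_
      intro h
      exact hb.1 (Subtype.ext (pbw_key_inj w h))
  have h3 : pbwMon x a.1 ∈ pbwM k x w a.1 := by
    have h4 : g a • pbwMon x a.1 ∈ pbwM k x w a.1 := by
      rw [h1]; exact Submodule.neg_mem _ h2
    have h5 := Submodule.smul_mem _ (g a)⁻¹ h4
    rwa [smul_smul, inv_mul_cancel₀ ha.2, one_smul] at h5
  exact a.2 h3

lemma pbw_X_eq (x : Fin d → H) (w : Fin d → ℕ) (n : ℕ) :
    pbwX k x w n = Submodule.span k (Set.range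
      (fun a : {a : Fin d → ℕ // a ∈ pbwStd k x w ∧ ∑ i, a i * w i ≤ n} => pbwMon x a.1)) := by
  apply le_antisymm
  · unfold pbwX
    rw [Submodule.span_le]
    rintro z ⟨c, hc, rfl⟩
    refine (Submodule.span_mono ?_) (pbw_std_span x w c)
    rintro z ⟨b, hb, hb2, rfl⟩
    exact ⟨⟨b, hb, (pbw_wt_le_of_key w hb2).trans hc⟩, rfl⟩
  · rw [Submodule.span_le]
    rintro z ⟨⟨a, ha, ha2⟩, rfl⟩
    exact Submodule.subset_span ⟨a, ha2, rfl⟩

lemma pbw_finite (w : Fin d → ℕ) (hw : ∀ i, 1 ≤ w i) (E : Set (Fin d → ℕ)) (n : ℕ) :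
    Finite {a : Fin d → ℕ // a ∈ E ∧ ∑ i, a i * w i ≤ n} := by
  have hfin : (Set.Iic (fun _ : Fin d => n)).Finite := Set.finite_Iic _
  have hsub : {a : Fin d → ℕ | a ∈ E ∧ ∑ i, a i * w i ≤ n} ⊆ Set.Iic (fun _ : Fin d => n) := by
    rintro a ⟨_, ha⟩ i
    have h1 : a i * w i ≤ ∑ i, a i * w i :=
      Finset.single_le_sum (f := fun i => a i * w i) (fun _ _ => Nat.zero_le _) (Finset.mem_univ i)
    have h2 := hw i
    have h3 : a i ≤ a i * w i := Nat.le_mul_of_pos_right _ (by omega)
    show a i ≤ n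
    omega
  exact (hfin.subset hsub).to_subtype

end standard

/-- PBW -/
theorem pbw_pr (k : Type u) [Field k] {H : Type v} [Ring H] [Bialgebra k H]
    {F : ℕ → Submodule k H} (hzero : F 0 = Submodule.span k {1}) (hmono : Monotone F)
    (hmul : ∀ a b : ℕ, ∀ x ∈ F a, ∀ y ∈ F b, x * y ∈ F (a + b))
    {d : ℕ} {x : Fin d → H} {w : Fin d → ℕ} (hx : IsLieGen k F x w) :
    ∃ E : Set (Fin d → ℕ), (∀ a ∈ E, ∀ b ≤ a, b ∈ E) ∧ 0 ∈ E ∧
      ∀ n : ℕ, Module.finrank k ↥(F n) = Nat.card {a : Fin d → ℕ // a ∈ E ∧ ∑ i, a i * w i ≤ n} := by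
  have hcl := pbw_claim hzero hmono hmul hx
  refine ⟨pbwStd k x w, pbw_std_down x w (fun N r => (hcl N).2 r), ?_, ?_⟩
  · have hnt : Nontrivial H := Bialgebra.nontrivial (R := k)
    show pbwMon x 0 ∉ pbwM k x w 0
    have : pbwM k x w 0 = ⊥ := by
      unfold pbwM
      rw [Submodule.span_eq_bot]
      rintro z ⟨b, hb, rfl⟩
      exfalso
      rw [pbw_key_lt_iff] at hb
      have h0 : pbwWt w (0 : Fin d → ℕ) = 0 := by simp [pbwWt]
      have hl0 : pbwLen (0 : Fin d → ℕ) = 0 := by simp [pbwLen]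
      rw [h0, hl0] at hb
      rcases hb with hb | ⟨h1, hb | ⟨h2, h3⟩⟩
      · omega
      · omega
      · rw [(pbw_wt_zero_iff w hx.wpos b).1 h1] at h3
        exact lt_irrefl _ h3
    rw [this, pbw_mon_zero, Submodule.mem_bot]
    exact one_ne_zero
  · intro n
    rw [(hcl n).1, pbw_X_eq]
    have : Finite {a : Fin d → ℕ // a ∈ pbwStd k x w ∧ ∑ i, a i * w i ≤ n} :=
      pbw_finite w hx.wpos _ n
    have := Fintype.ofFinite {a : Fin d → ℕ // a ∈ pbwStd k x w ∧ ∑ i, a i * w i ≤ n}
    rw [finrank_span_eq_card, Nat.card_eq_fintype_card]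
    have h1 := pbw_std_indep (k := k) x w
    have h2 := h1.comp (fun a : {a : Fin d → ℕ // a ∈ pbwStd k x w ∧ ∑ i, a i * w i ≤ n} =>
      (⟨a.1, a.2.1⟩ : pbwStd k x w)) (by
        intro a b hab
        simp only [Subtype.mk.injEq] at hab
        exact Subtype.ext hab)
    exact h2

end Pool.Agent.GK
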